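import Mathlib

/-!
# Products of Boolean algebras

The definitions of the problem MP_6fd33d_al: Boolean `m`-algebras, `m`-homomorphisms,
`(m, 0)`-products, `(m, n)`-products, minimal `(m, n)`-products and the order.
-/

set_option autoImplicit false

namespace Run7.h371.BP

open Set

/-- `B` is a Boolean `m`-algebra: all subsets with at most `m` elements have a join and a meet -/
def MAlgebra (m : Cardinal.{0}) (B : Type) [BooleanAlgebra B] : Prop :=
  ∀ S : Set B, Cardinal.mk S ≤ m → (∃ a, IsLUB S a) ∧ ∃ a, IsGLB S a

/-- `f` is an `m`-homomorphism: it preserves the joins and the meets of the subsets with at most `m`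
elements, as far as they exist -/
def MHom {A B : Type} [BooleanAlgebra A] [BooleanAlgebra B] (m : Cardinal.{0})
    (f : BoundedLatticeHom A B) : Prop :=
  ∀ S : Set A, Cardinal.mk S ≤ m →
    (∀ a, IsLUB S a → IsLUB (f '' S) (f a)) ∧ ∀ a, IsGLB S a → IsGLB (f '' S) (f a)

/-- `S` is an `m`-subalgebra of `B`: closed under complements and under the joins of at most `m`
elements (for `m ≥ 1` these subsets contain `0` and `1`, as the empty set has the join `0`) -/
structure MSub {B : Type} [BooleanAlgebra B] (m : Cardinal.{0}) (S : Set B) : Prop where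
  compl : ∀ a ∈ S, aᶜ ∈ S
  join : ∀ R : Set B, R ⊆ S → Cardinal.mk R ≤ m → ∀ a, IsLUB R a → a ∈ S

variable {T : Type} {A : T → Type} [∀ t, BooleanAlgebra (A t)] {B : Type} [BooleanAlgebra B]

/-- `(m, 0)`-products: `B` is a Boolean `m`-algebra, the `i t` are injective `m`-homomorphisms with
independent images, which generate `B` as a Boolean `m`-algebra -/
structure IsProductZero (m : Cardinal.{0}) (i : ∀ t, BoundedLatticeHom (A t) B) : Prop where
  algebra : MAlgebra m B
  hom : ∀ t, MHom m (i t)
  inj : ∀ t, Function.Injective (i t)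
  indep : ∀ (T' : Finset T) (c : ∀ t, A t), (∀ t ∈ T', c t ≠ ⊥) →
    (T'.inf fun t => i t (c t)) ≠ ⊥
  gen : ∀ S : Set B, MSub m S → (∀ t a, i t a ∈ S) → S = univ

/-- `(m, n)`-products: moreover the images are `n`-independent, that is, for at most `n` indices `t`
and elements `c t ≠ 0` the meet of the elements `i t (c t)` exists and is not `0` -/
structure IsProduct (m n : Cardinal.{0}) (i : ∀ t, BoundedLatticeHom (A t) B) : Prop
    extends IsProductZero m i where
  nindep : ∀ (T' : Set T), Cardinal.mk T' ≤ n → ∀ c : ∀ t, A t, (∀ t ∈ T', c t ≠ ⊥) →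
    ∃ g, IsGLB ((fun t => i t (c t)) '' T') g ∧ g ≠ ⊥

/-- minimal `(m, n)`-products: moreover the meets of at most `n` elements of the images are dense,
that is, every nonzero element lies above a nonzero such meet -/
structure IsMinimalProduct (m n : Cardinal.{0}) (i : ∀ t, BoundedLatticeHom (A t) B) : Prop
    extends IsProduct m n i where
  dense : ∀ b : B, b ≠ ⊥ → ∃ (T' : Set T) (c : ∀ t, A t) (g : B), Cardinal.mk T' ≤ n ∧
    IsGLB ((fun t => i t (c t)) '' T') g ∧ g ≠ ⊥ ∧ g ≤ b

/-- the order of the products: `i' ≤ i` if some `m`-homomorphism `h` from the algebra of `i` to the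
algebra of `i'` satisfies `h (i t a) = i' t a` -/
def ProductLE {B' : Type} [BooleanAlgebra B'] (m : Cardinal.{0})
    (i' : ∀ t, BoundedLatticeHom (A t) B') (i : ∀ t, BoundedLatticeHom (A t) B) : Prop :=
  ∃ h : BoundedLatticeHom B B', MHom m h ∧ ∀ t a, h (i t a) = i' t a

end Run7.h371.BP
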