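import Pool.Agent.Run7.h371.BP.RO

/-!
# Two copies of the regular open algebra of the Cantor space
-/

set_option autoImplicit false

namespace Run7.h371.BP

open Set TopologicalSpace

/-! ### tools -/

section tools

variable {B : Type} [BooleanAlgebra B] {m : Cardinal.{0}} {S : Set B}

theorem MSub.countable_join (h : MSub m S) (hm : Cardinal.aleph0 ≤ m) {R : Set B} (hR : R ⊆ S)
    (hc : R.Countable) {a : B} (ha : IsLUB R a) : a ∈ S :=
  h.join R hR ((Cardinal.le_aleph0_iff_set_countable.2 hc).trans hm) a ha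

theorem MSub.countable_meet (h : MSub m S) (hm : Cardinal.aleph0 ≤ m) {R : Set B} (hR : R ⊆ S)
    (hc : R.Countable) {a : B} (ha : IsGLB R a) : a ∈ S := by
  have h1 : IsLUB ((fun a => aᶜ) '' R) aᶜ := by
    constructor
    · rintro _ ⟨s, hs, rfl⟩
      exact compl_le_compl (ha.1 hs)
    · intro b hb
      have h2 : bᶜ ≤ a := by
        apply ha.2
        intro s hs
        exact compl_le_iff_compl_le.1 (hb (mem_image_of_mem _ hs))
      exact compl_le_iff_compl_le.1 h2
  have h2 : aᶜ ∈ S := by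
    refine h.countable_join hm ?_ (hc.image _) h1
    rintro _ ⟨s, hs, rfl⟩
    exact h.compl s (hR hs)
  have h3 := h.compl _ h2
  rwa [compl_compl] at h3

theorem MSub.sup (h : MSub m S) (hm : Cardinal.aleph0 ≤ m) {a b : B} (ha : a ∈ S) (hb : b ∈ S) :
    a ⊔ b ∈ S := by
  refine h.countable_join hm (R := {a, b}) ?_ (by simp) isLUB_pair
  rintro x (rfl | rfl)
  · exact ha
  · exact hb

theorem MSub.inf (h : MSub m S) (hm : Cardinal.aleph0 ≤ m) {a b : B} (ha : a ∈ S) (hb : b ∈ S) :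
    a ⊓ b ∈ S := by
  refine h.countable_meet hm (R := {a, b}) ?_ (by simp) isGLB_pair
  rintro x (rfl | rfl)
  · exact ha
  · exact hb

variable {A : Bool → Type} [∀ t, BooleanAlgebra (A t)] [∀ t, Nontrivial (A t)]
  (i : ∀ t, BoundedLatticeHom (A t) B)

open Classical in
/-- the element `c t` for `t` in `T'` and `⊤` otherwise -/
noncomputable def cut (T' : Set Bool) (c : ∀ t, A t) (t : Bool) : A t := if t ∈ T' then c t else ⊤

theorem cut_ne {T' : Set Bool} {c : ∀ t, A t} (h : ∀ t ∈ T', c t ≠ ⊥) (t : Bool) :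
    cut T' c t ≠ ⊥ := by
  unfold cut
  split
  · exact h t (by assumption)
  · exact top_ne_bot

theorem cut_le {T' : Set Bool} {c : ∀ t, A t} {t : Bool} (ht : t ∈ T') :
    i false (cut T' c false) ⊓ i true (cut T' c true) ≤ i t (c t) := by
  have h1 : cut T' c t = c t := if_pos ht
  cases t
  · rw [h1]
    exact inf_le_left
  · rw [h1]
    exact inf_le_right

theorem indep_of (h : ∀ U V, U ≠ ⊥ → V ≠ ⊥ → i false U ⊓ i true V ≠ ⊥) (T' : Finset Bool)
    (c : ∀ t, A t) (hc : ∀ t ∈ T', c t ≠ ⊥) : (T'.inf fun t => i t (c t)) ≠ ⊥ := by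
  intro h0
  have hc' : ∀ t ∈ (T' : Set Bool), c t ≠ ⊥ := fun t ht => hc t ht
  refine h _ _ (cut_ne hc' false) (cut_ne hc' true) (le_bot_iff.1 ?_)
  rw [← h0]
  exact Finset.le_inf fun t ht => cut_le i ht

theorem nindep_of (hB : ∀ S : Set B, ∃ a, IsGLB S a)
    (h : ∀ U V, U ≠ ⊥ → V ≠ ⊥ → i false U ⊓ i true V ≠ ⊥) (T' : Set Bool)
    (c : ∀ t, A t) (hc : ∀ t ∈ T', c t ≠ ⊥) :
    ∃ g, IsGLB ((fun t => i t (c t)) '' T') g ∧ g ≠ ⊥ := by
  obtain ⟨g, hg⟩ := hB ((fun t => i t (c t)) '' T')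
  refine ⟨g, hg, fun h0 => ?_⟩
  refine h _ _ (cut_ne hc false) (cut_ne hc true) (le_bot_iff.1 ?_)
  rw [← h0]
  apply hg.2
  rintro _ ⟨t, ht, rfl⟩
  exact cut_le i ht

end tools

/-! ### the Cantor space -/

/-- the Cantor space -/
abbrev X : Type := ℕ → Bool

/-- a countable discrete space: the finite sets of natural numbers -/
def C : Type := Finset ℕ

instance : TopologicalSpace C := ⊥
instance : DiscreteTopology C := ⟨rfl⟩
instance : Countable C := inferInstanceAs (Countable (Finset ℕ))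

/-- the point of the Cantor space with support `q` -/
def pt (q : C) : X := fun i => decide (i ∈ (show Finset ℕ from q))

theorem pt_inj {q q' : C} (h : ∀ i, pt q i = pt q' i) : q = q' := by
  apply Finset.ext
  intro i
  have h1 := h i
  unfold pt at h1
  exact decide_eq_decide.1 h1

/-- the product of `C` and the Cantor space -/
abbrev Y : Type := C × X

/-- the addition of the points of the Cantor space -/
def add (x y : X) : X := fun i => xor (x i) (y i)

theorem add_add (x y : X) : add (add x y) y = x := by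
  funext i
  show xor (xor (x i) (y i)) (y i) = x i
  cases x i <;> cases y i <;> rfl

theorem cont_shear : Continuous fun y : Y => ((y.1, add y.2 (pt y.1)) : Y) := by
  refine continuous_fst.prodMk (continuous_pi fun i => ?_)
  have h1 : Continuous fun y : Y => (y.2 i, pt y.1 i) :=
    ((continuous_apply i).comp continuous_snd).prodMk
      ((continuous_of_discreteTopology (f := fun q : C => pt q i)).comp continuous_fst)
  exact (continuous_of_discreteTopology (f := fun b : Bool × Bool => xor b.1 b.2)).comp h1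

/-- `(q, x) ↦ (q, x + q)` -/
def shear : Y ≃ₜ Y where
  toFun y := (y.1, add y.2 (pt y.1))
  invFun y := (y.1, add y.2 (pt y.1))
  left_inv y := by
    show (y.1, add (add y.2 (pt y.1)) (pt y.1)) = y
    rw [add_add]
  right_inv y := by
    show (y.1, add (add y.2 (pt y.1)) (pt y.1)) = y
    rw [add_add]
  continuous_toFun := cont_shear
  continuous_invFun := cont_shear

/-- `(q, x) ↦ x` -/
def p₁ : C(Y, X) := ⟨Prod.snd, continuous_snd⟩

/-- `(q, x) ↦ x + q` -/
def p₂ : C(Y, X) := ⟨fun y => add y.2 (pt y.1), continuous_snd.comp cont_shear⟩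

theorem open₁ : IsOpenMap p₁ := isOpenMap_snd

theorem open₂ : IsOpenMap p₂ := isOpenMap_snd.comp shear.isOpenMap

/-- the embeddings of the product `Q` -/
def iQ : (t : Bool) → BoundedLatticeHom (RO X) (RO Y)
  | false => pull p₁ open₁
  | true => pull p₂ open₂

/-- the embeddings of the minimal product -/
def iM : (t : Bool) → BoundedLatticeHom (RO X) (RO (X × X))
  | false => pull ⟨Prod.fst, continuous_fst⟩ isOpenMap_fst
  | true => pull ⟨Prod.snd, continuous_snd⟩ isOpenMap_snd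

open PiNat in
theorem clopen_cyl (x : X) (n : ℕ) : IsClopen (cylinder x n) :=
  ⟨by rw [cylinder_eq_pi]; exact isClosed_set_pi fun i _ => isClosed_singleton,
    isOpen_cylinder _ x n⟩

/-- cylinders as regular open sets -/
def cl (x : X) (n : ℕ) : RO X := clo _ (clopen_cyl x n)

theorem mem_cl {x y : X} {n : ℕ} : y ∈ (cl x n).val ↔ ∀ i < n, y i = x i := Iff.rfl

theorem cl_ne (x : X) (n : ℕ) : cl x n ≠ ⊥ :=
  (ne_bot_iff _).2 ⟨x, mem_cl.2 fun _ _ => rfl⟩

open PiNat in
theorem exists_cyl {U : Set X} (hU : IsOpen U) {x : X} (hx : x ∈ U) : ∃ n, cylinder x n ⊆ U := by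
  obtain ⟨s, ⟨y, n, rfl⟩, h1, h2⟩ :=
    (isTopologicalBasis_cylinders (fun _ : ℕ => Bool)).mem_nhds_iff.1 (hU.mem_nhds hx)
  refine ⟨n, ?_⟩
  rw [mem_cylinder_iff_eq.1 h1]
  exact h2

theorem exists_pt (x : X) (n : ℕ) : ∃ q : C, ∀ i < n, pt q i = x i := by
  refine ⟨(Finset.range n).filter fun i => x i = true, fun i hi => ?_⟩
  have h1 : (i ∈ (Finset.range n).filter fun i => x i = true) ↔ x i = true := by
    rw [Finset.mem_filter, Finset.mem_range]
    exact ⟨fun h => h.2, fun h => ⟨hi, h⟩⟩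
  show decide (i ∈ (Finset.range n).filter fun i => x i = true) = x i
  cases hx : x i
  · rw [decide_eq_false_iff_not, h1, hx]
    simp
  · rw [decide_eq_true_iff, h1, hx]

/-- the clopen set of the points with coordinate `i` equal to `1` -/
theorem clopen_co (i : ℕ) : IsClopen {x : X | x i = true} :=
  (isClopen_discrete {true}).preimage (continuous_apply i)

theorem clopen_e (s : Set C) : IsClopen {y : Y | y.1 ∈ s} :=
  (isClopen_discrete s).preimage continuous_fst

/-- the element of `Q` which is the copy of the Cantor space with index `q` -/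
def e (q : C) : RO Y := clo _ (clopen_e {q})

theorem mem_e {q : C} {y : Y} : y ∈ (e q).val ↔ y.1 = q := Iff.rfl

theorem ro_glb {Z : Type} [TopologicalSpace Z] (S : Set (RO Z)) : ∃ a, IsGLB S a :=
  ⟨_, isLUB_lowerBounds.1 (ro_lub (lowerBounds S))⟩

instance : Nontrivial (RO X) := ⟨cl (fun _ => false) 0, ⊥, cl_ne _ _⟩

theorem indepQ (U V : RO X) (hU : U ≠ ⊥) (hV : V ≠ ⊥) : iQ false U ⊓ iQ true V ≠ ⊥ := by
  obtain ⟨x, hx⟩ := (ne_bot_iff _).1 hU
  obtain ⟨y, hy⟩ := (ne_bot_iff _).1 hV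
  obtain ⟨n, hn⟩ := exists_cyl V.val.isOpen hy
  obtain ⟨q, hq⟩ := exists_pt (add x y) n
  refine (ne_bot_iff _).2 ⟨(q, x), hx, ?_⟩
  apply hn
  intro i hi
  show xor (x i) (pt q i) = y i
  rw [hq i hi]
  show xor (x i) (xor (x i) (y i)) = y i
  cases x i <;> cases y i <;> rfl

theorem indepM (U V : RO X) (hU : U ≠ ⊥) (hV : V ≠ ⊥) : iM false U ⊓ iM true V ≠ ⊥ := by
  obtain ⟨x, hx⟩ := (ne_bot_iff _).1 hU
  obtain ⟨y, hy⟩ := (ne_bot_iff _).1 hV
  exact (ne_bot_iff _).2 ⟨(x, y), hx, hy⟩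

/-- every pair of nonzero elements can be shrunk to a pair which does not meet over `e q` -/
theorem sepQ (U V : RO X) (hU : U ≠ ⊥) (hV : V ≠ ⊥) (q : C) : ∃ U' V' : RO X, U' ≤ U ∧ V' ≤ V ∧
    U' ≠ ⊥ ∧ V' ≠ ⊥ ∧ iQ false U' ⊓ iQ true V' ⊓ e q = ⊥ := by
  obtain ⟨x, hx⟩ := (ne_bot_iff _).1 hU
  obtain ⟨y₀, hy₀⟩ := (ne_bot_iff _).1 hV
  obtain ⟨n₀, hn₀⟩ := exists_cyl V.val.isOpen hy₀
  obtain ⟨y, hy, hne⟩ : ∃ y, y ∈ V.val ∧ y ≠ add x (pt q) := by
    by_cases h : y₀ = add x (pt q)
    · refine ⟨Function.update y₀ n₀ (!(y₀ n₀)), hn₀ ?_, ?_⟩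
      · intro i hi
        exact Function.update_of_ne (by omega) _ _
      · intro h1
        rw [← h] at h1
        have h2 := congrFun h1 n₀
        rw [Function.update_self] at h2
        exact absurd h2 (by cases y₀ n₀ <;> decide)
    · exact ⟨y₀, hy₀, h⟩
  obtain ⟨k, hk⟩ := Function.ne_iff.1 hne
  obtain ⟨n₁, hn₁⟩ := exists_cyl U.val.isOpen hx
  obtain ⟨n₂, hn₂⟩ := exists_cyl V.val.isOpen hy
  refine ⟨cl x (n₁ + k + 1), cl y (n₂ + k + 1), ?_, ?_, cl_ne _ _, cl_ne _ _, ?_⟩
  · rw [le_def]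
    intro z hz
    exact hn₁ fun i hi => hz i (by omega)
  · rw [le_def]
    intro z hz
    exact hn₂ fun i hi => hz i (by omega)
  · by_contra h0
    obtain ⟨⟨q', z⟩, ⟨h1, h2⟩, h3⟩ := (ne_bot_iff _).1 h0
    have h3 : q' = q := h3
    subst h3
    have h4 : z k = x k := h1 k (by omega)
    have h5 : xor (z k) (pt q' k) = y k := h2 k (by omega)
    rw [h4] at h5
    exact hk h5.symm

/-! ### generation -/

theorem genQ {m : Cardinal.{0}} (hm : Cardinal.aleph0 ≤ m) (S : Set (RO Y)) (hS : MSub m S)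
    (h : ∀ t a, iQ t a ∈ S) : S = univ := by
  have hD : ∀ i : ℕ, clo _ (clopen_e {q | pt q i = false}) ∈ S := by
    intro i
    have h1 : clo _ (clopen_e {q | pt q i = false}) =
        (iQ false (clo _ (clopen_co i)) ⊓ iQ true (clo _ (clopen_co i))) ⊔
        ((iQ false (clo _ (clopen_co i)))ᶜ ⊓ (iQ true (clo _ (clopen_co i)))ᶜ) := by
      show _ = (pull p₁ open₁ (clo _ (clopen_co i)) ⊓ pull p₂ open₂ (clo _ (clopen_co i))) ⊔
        ((pull p₁ open₁ (clo _ (clopen_co i)))ᶜ ⊓ (pull p₂ open₂ (clo _ (clopen_co i)))ᶜ)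
      rw [pull_clo, pull_clo, clo_compl, clo_compl, clo_inf, clo_inf, clo_sup]
      apply ro_ext
      rintro ⟨q, x⟩
      rw [mem_clo, mem_clo]
      show pt q i = false ↔ (x i = true ∧ xor (x i) (pt q i) = true) ∨
        (¬ x i = true ∧ ¬ xor (x i) (pt q i) = true)
      cases x i <;> cases pt q i <;> simp
    rw [h1]
    exact hS.sup hm (hS.inf hm (h _ _) (h _ _))
      (hS.inf hm (hS.compl _ (h _ _)) (hS.compl _ (h _ _)))
  have he : ∀ q : C, e q ∈ S := by
    intro q
    refine hS.countable_meet hm (R := range fun i : ℕ => clo _ (clopen_e {q' | pt q' i = pt q i}))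
      ?_ (countable_range _) ?_
    · rintro _ ⟨i, rfl⟩
      dsimp only
      cases hq : pt q i
      · exact hD i
      · have h1 := hS.compl _ (hD i)
        rw [clo_compl] at h1
        convert h1 using 1
        apply ro_ext
        rintro ⟨q', x⟩
        rw [mem_clo, mem_clo]
        show pt q' i = true ↔ ¬ pt q' i = false
        cases pt q' i <;> simp
    · constructor
      · rintro _ ⟨i, rfl⟩
        rw [le_def]
        rintro ⟨q', x⟩ hq
        have hq : q' = q := hq
        subst hq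
        exact (rfl : pt q' i = pt q' i)
      · intro b hb
        rw [le_def]
        rintro ⟨q', x⟩ hx
        refine mem_e.2 (pt_inj fun i => ?_)
        exact (le_def _ _).1 (hb (mem_range_self i)) (q', x) hx
  rw [eq_univ_iff_forall]
  intro W
  have hι : ∀ q : C, Continuous fun x : X => ((q, x) : Y) := fun q => continuous_const.prodMk continuous_id
  have hιo : ∀ q : C, IsOpenMap (⟨fun x : X => ((q, x) : Y), hι q⟩ : C(X, Y)) := by
    intro q U hU
    have h1 : ((fun x : X => ((q, x) : Y)) '' U) = ({q} : Set C) ×ˢ U := by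
      ext ⟨q', x⟩
      constructor
      · rintro ⟨x', hx', h2⟩
        rw [Prod.mk.injEq] at h2
        obtain ⟨rfl, rfl⟩ := h2
        exact ⟨rfl, hx'⟩
      · rintro ⟨h2, h3⟩
        have h2 : q' = q := h2
        subst h2
        exact ⟨x, h3, rfl⟩
    show IsOpen ((fun x : X => ((q, x) : Y)) '' U)
    rw [h1]
    exact (isOpen_discrete _).prod hU
  refine hS.countable_join hm (R := range fun q : C => e q ⊓ iQ false (pull _ (hιo q) W)) ?_
    (countable_range _) ?_
  · rintro _ ⟨q, rfl⟩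
    exact hS.inf hm (he q) (h _ _)
  · constructor
    · rintro _ ⟨q, rfl⟩
      rw [le_def]
      rintro ⟨q', x⟩ ⟨h1, h2⟩
      have h1 : q' = q := h1
      subst h1
      exact h2
    · intro b hb
      rw [le_def]
      rintro ⟨q, x⟩ hx
      exact (le_def _ _).1 (hb (mem_range_self q)) (q, x) ⟨rfl, hx⟩

theorem boxM {W : RO (X × X)} {x y : X} (h : (x, y) ∈ W.val) :
    ∃ n, ∀ z w : X, (∀ i < n, z i = x i) → (∀ i < n, w i = y i) → (z, w) ∈ W.val := by
  obtain ⟨U, V, hU, hV, hx, hy, hUV⟩ := isOpen_prod_iff.1 W.val.isOpen x y h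
  obtain ⟨n₁, hn₁⟩ := exists_cyl hU hx
  obtain ⟨n₂, hn₂⟩ := exists_cyl hV hy
  refine ⟨n₁ + n₂, fun z w hz hw => hUV ⟨hn₁ fun i hi => hz i (by omega),
    hn₂ fun i hi => hw i (by omega)⟩⟩

theorem genM {m : Cardinal.{0}} (hm : Cardinal.aleph0 ≤ m) (S : Set (RO (X × X))) (hS : MSub m S)
    (h : ∀ t a, iM t a ∈ S) : S = univ := by
  rw [eq_univ_iff_forall]
  intro W
  refine hS.countable_join hm (R := {b | b ∈ (range fun k : (C × C) × ℕ =>
    iM false (cl (pt k.1.1) k.2) ⊓ iM true (cl (pt k.1.2) k.2)) ∧ b ≤ W}) ?_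
    ((countable_range _).mono fun b hb => hb.1) ?_
  · rintro _ ⟨⟨k, rfl⟩, -⟩
    exact hS.inf hm (h _ _) (h _ _)
  · constructor
    · rintro b ⟨-, hb⟩
      exact hb
    · intro b hb
      rw [le_def]
      rintro ⟨x, y⟩ hx
      obtain ⟨n, hn⟩ := boxM hx
      obtain ⟨q, hq⟩ := exists_pt x n
      obtain ⟨q', hq'⟩ := exists_pt y n
      have h1 : iM false (cl (pt q) n) ⊓ iM true (cl (pt q') n) ≤ W := by
        rw [le_def]
        rintro ⟨z, w⟩ ⟨hz, hw⟩
        exact hn z w (fun i hi => (hz i hi).trans (hq i hi))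
          fun i hi => (hw i hi).trans (hq' i hi)
      have h2 := (le_def _ _).1 (hb ⟨⟨((q, q'), n), rfl⟩, h1⟩) (x, y)
      exact h2 ⟨fun i hi => (hq i hi).symm, fun i hi => (hq' i hi).symm⟩

/-! ### the products -/

theorem isProductQ {n m : Cardinal.{0}} (hn : Cardinal.aleph0 ≤ n) (hnm : n ≤ m) :
    IsProduct m n (A := fun _ : Bool => RO X) iQ where
  algebra := ro_algebra m
  hom := by
    rintro (_ | _)
    · exact pull_mhom m _ open₁
    · exact pull_mhom m _ open₂
  inj := by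
    rintro (_ | _)
    · exact pull_inj _ open₁ fun x => ⟨((∅ : Finset ℕ), x), rfl⟩
    · refine pull_inj _ open₂ fun x => ⟨((∅ : Finset ℕ), x), ?_⟩
      funext i
      show xor (x i) (decide (i ∈ (∅ : Finset ℕ))) = x i
      cases x i <;> simp
  indep := indep_of iQ indepQ
  gen := genQ (hn.trans hnm)
  nindep := fun T' _ => nindep_of iQ ro_glb indepQ T'

theorem isMinimalM {n m : Cardinal.{0}} (hn : Cardinal.aleph0 ≤ n) (hnm : n ≤ m) :
    IsMinimalProduct m n (A := fun _ : Bool => RO X) iM where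
  algebra := ro_algebra m
  hom := by
    rintro (_ | _)
    · exact pull_mhom m _ isOpenMap_fst
    · exact pull_mhom m _ isOpenMap_snd
  inj := by
    rintro (_ | _)
    · exact pull_inj _ isOpenMap_fst fun x => ⟨(x, x), rfl⟩
    · exact pull_inj _ isOpenMap_snd fun x => ⟨(x, x), rfl⟩
  indep := indep_of iM indepM
  gen := genM (hn.trans hnm)
  nindep := fun T' _ => nindep_of iM ro_glb indepM T'
  dense := by
    intro b hb
    obtain ⟨⟨x, y⟩, hxy⟩ := (ne_bot_iff _).1 hb
    obtain ⟨k, hk⟩ := boxM hxy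
    refine ⟨univ, fun t => match t with | false => cl x k | true => cl y k,
      iM false (cl x k) ⊓ iM true (cl y k),
      (Cardinal.le_aleph0_iff_set_countable.2 (to_countable _)).trans hn, ⟨?_, ?_⟩,
      indepM _ _ (cl_ne _ _) (cl_ne _ _), ?_⟩
    · rintro _ ⟨t, -, rfl⟩
      cases t
      · exact inf_le_left
      · exact inf_le_right
    · intro g hg
      exact le_inf (hg ⟨false, mem_univ _, rfl⟩) (hg ⟨true, mem_univ _, rfl⟩)
    · rw [le_def]
      rintro ⟨z, w⟩ ⟨hz, hw⟩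
      exact hk z w hz hw

theorem htop : IsLUB (range e) (⊤ : RO Y) := by
  refine ⟨fun _ _ => le_top, fun b hb => ?_⟩
  rw [le_def]
  rintro ⟨q, x⟩ -
  exact (le_def _ _).1 (hb (mem_range_self q)) (q, x) rfl

/-- a criterion -/
theorem not_le_of {A : Bool → Type} [∀ t, BooleanAlgebra (A t)] [∀ t, Nontrivial (A t)]
    {n m : Cardinal.{0}} (hm : Cardinal.aleph0 ≤ m) {Q : Type} [BooleanAlgebra Q]
    (j : ∀ t, BoundedLatticeHom (A t) Q) {I : Type} [Countable I] (e : I → Q)
    (htop : IsLUB (range e) ⊤)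
    (hsep : ∀ (U : A false) (V : A true), U ≠ ⊥ → V ≠ ⊥ → ∀ q, ∃ (U' : A false) (V' : A true),
      U' ≤ U ∧ V' ≤ V ∧ U' ≠ ⊥ ∧ V' ≠ ⊥ ∧ j false U' ⊓ j true V' ⊓ e q = ⊥)
    {B : Type} [BooleanAlgebra B] (i : ∀ t, BoundedLatticeHom (A t) B)
    (hi : IsMinimalProduct m n i) : ¬ ProductLE m i j := by
  rintro ⟨h, hh, hc⟩
  have hpair : ∀ (U : A false) (V : A true), U ≠ ⊥ → V ≠ ⊥ → i false U ⊓ i true V ≠ ⊥ := by
    intro U V hU hV h0
    refine hi.indep Finset.univ (fun t => match t with | false => U | true => V) ?_ ?_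
    · rintro (_ | _) _
      · exact hU
      · exact hV
    · apply le_bot_iff.1
      rw [← h0]
      refine le_inf ?_ ?_
      · exact Finset.inf_le (f := fun t => i t (match t with | false => U | true => V))
          (Finset.mem_univ false)
      · exact Finset.inf_le (f := fun t => i t (match t with | false => U | true => V))
          (Finset.mem_univ true)
  have he : ∀ q, h (e q) = ⊥ := by
    intro q
    by_contra h0
    obtain ⟨T', c, g, -, hg, hg0, hge⟩ := hi.dense _ h0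
    have hc0 : ∀ t ∈ T', c t ≠ ⊥ := by
      intro t ht h1
      have h2 := hg.1 (mem_image_of_mem (fun t => i t (c t)) ht)
      rw [h1, map_bot] at h2
      exact hg0 (le_bot_iff.1 h2)
    obtain ⟨U', V', hU, hV, hU0, hV0, hUV⟩ := hsep _ _ (cut_ne hc0 false) (cut_ne hc0 true) q
    have h1 : i false U' ⊓ i true V' ≤ g := by
      apply hg.2
      rintro _ ⟨t, ht, rfl⟩
      exact (inf_le_inf (OrderHomClass.mono (i false) hU) (OrderHomClass.mono (i true) hV)).trans
        (cut_le i ht)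
    have h2 : i false U' ⊓ i true V' ⊓ h (e q) = ⊥ := by
      rw [← hc, ← hc, ← map_inf, ← map_inf, hUV, map_bot]
    rw [inf_eq_left.2 (h1.trans hge)] at h2
    exact hpair U' V' hU0 hV0 h2
  have h1 := (hh (range e) ((Cardinal.le_aleph0_iff_set_countable.2 (countable_range _)).trans
    hm)).1 _ htop
  rw [map_top] at h1
  have h2 : (⊤ : B) ≤ ⊥ := by
    apply h1.2
    rintro _ ⟨_, ⟨q, rfl⟩, rfl⟩
    rw [he q]
  have h3 : i false ⊤ ⊓ i true ⊤ ≠ ⊥ := hpair ⊤ ⊤ top_ne_bot top_ne_bot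
  rw [map_top, map_top, inf_idem] at h3
  exact h3 (le_bot_iff.1 h2)

/-- no minimal product is below `Q` -/
theorem not_le {n m : Cardinal.{0}} (hm : Cardinal.aleph0 ≤ m) {B : Type} [BooleanAlgebra B]
    (i : (t : Bool) → BoundedLatticeHom (RO X) B)
    (hi : IsMinimalProduct m n (A := fun _ : Bool => RO X) i) :
    ¬ ProductLE m (A := fun _ : Bool => RO X) i iQ :=
  not_le_of hm (A := fun _ : Bool => RO X) iQ e htop
    (fun U V hU hV q => sepQ U V hU hV q) i hi

end Run7.h371.BP
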