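import Pool.Agent.Run7.h371.BP.Defs

/-!
# Regular open sets
-/

set_option autoImplicit false

namespace Run7.h371.BP

open Set TopologicalSpace

/-- the Boolean algebra of the regular open sets -/
abbrev RO (X : Type) [TopologicalSpace X] : Type := Heyting.Regular (Opens X)

section

variable {X Y : Type} [TopologicalSpace X] [TopologicalSpace Y]

theorem ro_lub (S : Set (RO X)) :
    IsLUB S (Heyting.Regular.toRegular (sSup ((fun a : RO X => (a : Opens X)) '' S))) := by
  constructor
  · intro s hs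
    rw [← Heyting.Regular.coe_le_coe, Heyting.Regular.coe_toRegular]
    exact (le_sSup (mem_image_of_mem _ hs)).trans le_compl_compl
  · intro b hb
    rw [← Heyting.Regular.coe_le_coe, Heyting.Regular.coe_toRegular]
    have h1 : sSup ((fun a : RO X => (a : Opens X)) '' S) ≤ (b : Opens X) := by
      apply sSup_le
      rintro _ ⟨a, ha, rfl⟩
      exact Heyting.Regular.coe_le_coe.2 (hb ha)
    exact (compl_le_compl (compl_le_compl h1)).trans_eq b.prop

theorem ro_algebra (m : Cardinal.{0}) : MAlgebra m (RO X) := by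
  intro S _
  exact ⟨⟨_, ro_lub S⟩, ⟨_, isLUB_lowerBounds.1 (ro_lub (lowerBounds S))⟩⟩

/-- the preimage of an open set under a continuous open map commutes with the complement -/
theorem comap_compl (f : C(X, Y)) (ho : IsOpenMap f) (U : Opens Y) :
    Opens.comap f Uᶜ = (Opens.comap f U)ᶜ := by
  apply SetLike.coe_injective
  rw [Opens.coe_comap, Opens.coe_compl_eq_interior_compl, Opens.coe_compl_eq_interior_compl,
    Opens.coe_comap, ho.preimage_interior_eq_interior_preimage f.continuous, preimage_compl]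

/-- the preimage of regular open sets under a continuous open map -/
def pull (f : C(X, Y)) (ho : IsOpenMap f) : BoundedLatticeHom (RO Y) (RO X) where
  toFun U := ⟨Opens.comap f U.val, by
    show (Opens.comap f U.val)ᶜᶜ = Opens.comap f U.val
    rw [← comap_compl f ho, ← comap_compl f ho, U.prop.eq]⟩
  map_sup' U V := by
    apply Heyting.Regular.coe_injective
    show Opens.comap f (U.val ⊔ V.val)ᶜᶜ = (Opens.comap f U.val ⊔ Opens.comap f V.val)ᶜᶜ
    rw [comap_compl f ho, comap_compl f ho, map_sup]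
  map_inf' U V := by
    apply Heyting.Regular.coe_injective
    show Opens.comap f (U.val ⊓ V.val) = (Opens.comap f U.val ⊓ Opens.comap f V.val)
    rw [map_inf]
  map_top' := by
    apply Heyting.Regular.coe_injective
    show Opens.comap f ⊤ = ⊤
    rw [map_top]
  map_bot' := by
    apply Heyting.Regular.coe_injective
    show Opens.comap f ⊥ = ⊥
    rw [map_bot]

theorem pull_val (f : C(X, Y)) (ho : IsOpenMap f) (U : RO Y) :
    (pull f ho U).val = Opens.comap f U.val := rfl

theorem mem_pull (f : C(X, Y)) (ho : IsOpenMap f) (U : RO Y) (x : X) :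
    x ∈ (pull f ho U).val ↔ f x ∈ U.val := Iff.rfl

theorem pull_lub (f : C(X, Y)) (ho : IsOpenMap f) (S : Set (RO Y)) (a : RO Y) (h : IsLUB S a) :
    IsLUB (pull f ho '' S) (pull f ho a) := by
  have h1 := ro_lub S
  have h2 : a = Heyting.Regular.toRegular (sSup ((fun a : RO Y => (a : Opens Y)) '' S)) :=
    h.unique h1
  have h3 : pull f ho a = Heyting.Regular.toRegular
      (sSup ((fun a : RO X => (a : Opens X)) '' (pull f ho '' S))) := by
    apply Heyting.Regular.coe_injective
    rw [h2, Heyting.Regular.coe_toRegular]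
    show Opens.comap f (sSup ((fun a : RO Y => (a : Opens Y)) '' S))ᶜᶜ = _
    rw [comap_compl f ho, comap_compl f ho, map_sSup, image_image, image_image]
    rfl
  rw [h3]
  exact ro_lub _

theorem pull_mhom (m : Cardinal.{0}) (f : C(X, Y)) (ho : IsOpenMap f) : MHom m (pull f ho) := by
  intro S _
  refine ⟨fun a h => pull_lub f ho S a h, fun a h => ?_⟩
  have h1 : IsLUB (compl '' S) aᶜ := by
    constructor
    · rintro _ ⟨s, hs, rfl⟩
      exact compl_le_compl (h.1 hs)
    · intro b hb
      have h2 : bᶜ ≤ a := by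
        apply h.2
        intro s hs
        have h3 : sᶜ ≤ b := hb (mem_image_of_mem _ hs)
        exact compl_le_iff_compl_le.1 h3
      exact compl_le_iff_compl_le.1 h2
  have h2 := pull_lub f ho _ _ h1
  constructor
  · rintro _ ⟨s, hs, rfl⟩
    exact OrderHomClass.mono (pull f ho) (h.1 hs)
  · intro b hb
    have h3 : pull f ho aᶜ ≤ bᶜ := by
      apply h2.2
      rintro _ ⟨_, ⟨s, hs, rfl⟩, rfl⟩
      rw [map_compl']
      exact compl_le_compl (hb (mem_image_of_mem _ hs))
    rw [map_compl'] at h3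
    exact compl_le_compl_iff_le.1 h3

theorem pull_inj (f : C(X, Y)) (ho : IsOpenMap f) (hf : Function.Surjective f) :
    Function.Injective (pull f ho) := by
  intro U V h
  apply Heyting.Regular.coe_injective
  apply Opens.ext
  ext y
  obtain ⟨x, rfl⟩ := hf y
  have h1 : x ∈ (pull f ho U).val ↔ x ∈ (pull f ho V).val := by rw [h]
  exact h1

/-- clopen sets as regular open sets -/
def clo (U : Set X) (hU : IsClopen U) : RO X := ⟨⟨U, hU.isOpen⟩, by
  apply SetLike.coe_injective
  rw [Opens.coe_compl_eq_interior_compl, Opens.coe_compl_eq_interior_compl, Opens.coe_mk,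
    hU.compl.isOpen.interior_eq, compl_compl, hU.isOpen.interior_eq]⟩

theorem mem_clo {U : Set X} (hU : IsClopen U) (x : X) : x ∈ (clo U hU).val ↔ x ∈ U := Iff.rfl

theorem le_def (U V : RO X) : U ≤ V ↔ ∀ x, x ∈ U.val → x ∈ V.val := Iff.rfl

theorem ro_ext {U V : RO X} (h : ∀ x, x ∈ U.val ↔ x ∈ V.val) : U = V :=
  Heyting.Regular.coe_injective (Opens.ext (Set.ext h))

theorem mem_inf (U V : RO X) (x : X) : x ∈ (U ⊓ V).val ↔ x ∈ U.val ∧ x ∈ V.val := Iff.rfl

theorem mem_bot (x : X) : x ∉ (⊥ : RO X).val := fun h => h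

theorem ne_bot_iff (U : RO X) : U ≠ ⊥ ↔ ∃ x, x ∈ U.val := by
  constructor
  · intro h
    by_contra h0
    push Not at h0
    exact h (ro_ext fun x => ⟨fun hx => absurd hx (h0 x), fun hx => absurd hx (mem_bot x)⟩)
  · rintro ⟨x, hx⟩ h
    rw [h] at hx
    exact mem_bot x hx

theorem clo_compl {U : Set X} (hU : IsClopen U) : (clo U hU)ᶜ = clo Uᶜ hU.compl := by
  apply ro_ext
  intro x
  show x ∈ (((clo U hU).val)ᶜ : Opens X) ↔ _
  rw [← SetLike.mem_coe, Opens.coe_compl_eq_interior_compl]
  show x ∈ interior Uᶜ ↔ x ∈ Uᶜ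
  rw [hU.compl.isOpen.interior_eq]

theorem clo_inf {U V : Set X} (hU : IsClopen U) (hV : IsClopen V) :
    clo U hU ⊓ clo V hV = clo (U ∩ V) (hU.inter hV) := rfl

theorem clo_sup {U V : Set X} (hU : IsClopen U) (hV : IsClopen V) :
    clo U hU ⊔ clo V hV = clo (U ∪ V) (hU.union hV) := by
  have h1 : clo U hU ⊔ clo V hV = ((clo U hU)ᶜ ⊓ (clo V hV)ᶜ)ᶜ := by
    have h2 := compl_inf (x := (clo U hU)ᶜ) (y := (clo V hV)ᶜ)
    rw [compl_compl, compl_compl] at h2
    exact h2.symm
  rw [h1, clo_compl, clo_compl, clo_inf, clo_compl]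
  apply ro_ext
  intro x
  rw [mem_clo, mem_clo, compl_inter, compl_compl, compl_compl]

theorem pull_clo (f : C(X, Y)) (ho : IsOpenMap f) {U : Set Y} (hU : IsClopen U) :
    pull f ho (clo U hU) = clo (f ⁻¹' U) (hU.preimage f.continuous) := rfl

end

end Run7.h371.BP
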